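import Mathlib
import Pool.Agent.Helper332.SAD.Statements
import Pool.Agent.L5helper89.CPS.Force4
import Pool.Agent.L5helper89.CPS.Setup
import Pool.Agent.L5helper89.CPS.Sanity

/-!
# Compact continuous images of `C_p(K)` for scattered compact spaces: independence

Question 1 is independent of ZFC: both a positive and a negative answer are consistent. The
positive answer holds in the extension by countable partial functions `λ × ω₁ → 2` with
`λ > 2^{ω₁}`. It goes through a combinatorial principle, `SigmaLifting`, which holds in this
extension. (By `liftingHolds_unit` the sentence `LiftingHolds` of the forcing language says, for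
the one-point forcing notion, that `SigmaLifting` holds.)
-/

set_option autoImplicit false

namespace Pool.Agent.Results.MP_b07c92_gt.ScatteredIndependence

open Pool.Agent.Helper332.SAD (SADHolds StronglyAlmostDisjoint)
open Pool.Agent.Helper332.SADSpace (Scattered)
open Pool.Agent.Helper292.ForceCH (OmegaOnePreserved)
open Pool.Agent.L5helper89.CPS (SigmaLifting LiftingHolds NoNewSequences)

/-- (1) Some forcing notion forces that `ω₁` is preserved, that there are no new sequences of
elements of the ground model, and that the principle of `σ`-closed lifting holds. (2) Under the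
principle of `σ`-closed lifting every compact continuous image of `C_p(K)` is metrizable, for
every scattered compact space `K`. (3) Some forcing notion forces that `ω₁` is preserved and that
there are `2^{ω₁}` strongly almost disjoint functions `ω₁ → ω`. (4) If there are `2^{ω₁}` strongly
almost disjoint functions `ω₁ → ω`, then for some scattered compact space `K` the space `C_p(K)`
maps continuously onto a non-metrizable compact space. -/
theorem result :
    (∃ (P : Type) (_ : Preorder P), Nonempty P ∧
      ∀ p : P, p ∈ OmegaOnePreserved P ∧ p ∈ NoNewSequences P ∧ p ∈ LiftingHolds P) ∧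
    (SigmaLifting →
      ∀ (K : Type) [TopologicalSpace K] [CompactSpace K] [T2Space K], Scattered K →
      ∀ (Y : Type) [TopologicalSpace Y] [CompactSpace Y] [T2Space Y]
        (φ : {g : K → ℝ // Continuous g} → Y), Continuous φ → Function.Surjective φ →
        TopologicalSpace.MetrizableSpace Y) ∧
    (∃ (P : Type) (_ : Preorder P) (I : Type), Nonempty P ∧
      ∀ p : P, p ∈ OmegaOnePreserved P ∧ p ∈ SADHolds P I) ∧
    (StronglyAlmostDisjoint →
      ∃ (K : Type) (_ : TopologicalSpace K), CompactSpace K ∧ T2Space K ∧ Scattered K ∧
        ∃ (Y : Type) (_ : TopologicalSpace Y) (φ : {g : K → ℝ // Continuous g} → Y),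
          CompactSpace Y ∧ T2Space Y ∧ Continuous φ ∧ Function.Surjective φ ∧
          ¬ TopologicalSpace.MetrizableSpace Y) := by
  refine ⟨Pool.Agent.L5helper89.CPS.exists_forcing, ?_, Pool.Agent.Helper332.SAD.exists_forcing,
    ?_⟩
  · intro h K _ _ _ hK Y _ _ _ φ hφ hs
    exact Pool.Agent.L5helper89.CPS.metrizable_of_lifting h K hK Y φ hφ hs
  · rintro ⟨I, f, e, hf, he⟩
    obtain ⟨K, τ, h1, h2, h3, -, -, h4⟩ :=
      Pool.Agent.Helper332.SADSpace.space_of_sad I f e hf he
    exact ⟨K, τ, h1, h2, h3, h4⟩

end Pool.Agent.Results.MP_b07c92_gt.ScatteredIndependence
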